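import Pool.Agent.Helper644_ST.Lim

/-!
# The Sato-Tate law for an abelian surface over varying extensions of its field of definition

`A` is an abelian surface over a number field `K`, `G = ST_A` with component group `Q` and `x_v = s(v)`
(the theorem holds for abelian varieties of any dimension and for the other families with an algebraic
Sato-Tate group).  The question asks for the law over all number fields.  The theorem is about the set
of the finite extensions `F ⊆ K̄` of `K` over which the law holds for `A_F`.

An infinite set `S` of such fields converges to `E` if all of them contain `E` and no larger field is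
contained in infinitely many of them.  Suppose that the number of the fields whose product is
`F ⊗_K F` is bounded on `S`; this is so if the degrees are bounded, and also for example for fields with
doubly transitive Galois groups of any degrees.  Then `S` has a convergent subset, and if `S` converges to
`E` and the law holds over infinitely many `F ∈ S`, then it holds over `E`: the set of the fields over
which the law holds is closed.  More precisely the discrepancy of every class function is
semicontinuous.

So if the law holds over infinitely many quadratic extensions of `K`, or over infinitely many extensions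
of prime degree `p`, then it holds over `K`.  Nothing is assumed on automorphy or on `L`-functions.

The proof compares the discrepancies over the `F ∈ S` and over `E`.  For suitable `F_1, F_2, … ∈ S` the
differences of the numbers of fixed embeddings of `F_i` and of `E` are orthogonal functions on the Galois
group of `K`, and Bessel's inequality shows that the sum of the squares of the differences of the
discrepancies over `F_1, …, F_m` and over `E` is bounded independently of `m`, at every large `N`.
-/

set_option autoImplicit false

namespace Pool.Agent.Results.MP_6dc561_nt.LimitsOfFields

open NumberField Filter MeasureTheory Pool.Agent.Helper644_ST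

theorem result (K : Type) [Field K] [NumberField K] (G : Type) [Group G] [TopologicalSpace G]
    [IsTopologicalGroup G] [CompactSpace G] [MeasurableSpace G] [BorelSpace G] (μ : Measure G)
    [IsProbabilityMeasure μ] [μ.IsHaarMeasure] (D : Datum K G) :
    (∀ (S : Set (IntermediateField K (AlgebraicClosure K)))
      (E : IntermediateField K (AlgebraicClosure K)) (c : ℕ), ConvergesTo S E →
      (∀ F ∈ S, numFields K F F ≤ c) →
      (∀ f : G → ℝ, IsTest f → ∀ b : ℝ, {F ∈ S | D.LimsupAtMost μ f b F}.Infinite →
        D.LimsupAtMost μ f b E) ∧
      ({F ∈ S | D.LawOver μ F}.Infinite → D.LawOver μ E)) ∧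
    (∀ (S : Set (IntermediateField K (AlgebraicClosure K))) (c : ℕ), S.Infinite →
      (∀ F ∈ S, NumberField F) → (∀ F ∈ S, numFields K F F ≤ c) →
      (∃ E : IntermediateField K (AlgebraicClosure K), ConvergesTo {F ∈ S | E ≤ F} E) ∧
      ((∀ F ∈ S, D.LawOver μ F) →
        ∃ E : IntermediateField K (AlgebraicClosure K), D.LawOver μ E ∧
          {F ∈ S | E < F}.Infinite)) ∧
    (D.LawOver μ ⊥ ↔ D.SatoTate μ) ∧
    (∀ (F : Type) [Field F] [NumberField F] [Algebra K F],
      numFields K F F ≤ Module.finrank K F) := by
  refine ⟨fun S E c hS hc => ⟨fun f hf b hb => semicont μ D hS c hc hf b hb,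
    fun h => closed μ D hS c hc h⟩, fun S c hS hnf hc => ?_, bot_iff μ D,
    fun F _ _ _ => numFields_le F⟩
  obtain ⟨E, hE, hconv⟩ := exists_limit hS c hnf hc
  refine ⟨⟨E, hconv⟩, fun hlaw => ⟨E, ?_, ?_⟩⟩
  · refine closed μ D hconv c (fun F hF => hc F hF.1) ?_
    exact hconv.infinite.mono fun F hF => ⟨hF, hlaw F hF.1⟩
  · refine (hconv.infinite.sdiff (Set.finite_singleton E)).mono ?_
    rintro F ⟨hF, hne⟩
    exact ⟨hF.1, lt_of_le_of_ne hF.2 fun h => hne h.symm⟩

end Pool.Agent.Results.MP_6dc561_nt.LimitsOfFields
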